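import Pool.Agent.Results.MP_90cb67_lc.CutIsDelta
import Pool.Agent.Helper9CH.Two

/-!
# MP_90cb67_lc, Q1: consistently some external partition cut is a `δ`-set

The continuum hypothesis can be forced, and so can Martin's axiom with `𝔠 = ℵ₂`; each of them
implies `𝔡 = 𝔠`, and this gives a nonprincipal ultrafilter `F` and a partition `P` into countably
many small sets such that the cut `C_P` is external and is a `δ`-set.
-/

set_option autoImplicit false

open Cardinal Set Filter

namespace Pool.Agent.Results.MP_90cb67_lc.ConsistentlyFails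

open Pool.Agent.Results.MP_90cb67_lc.CutIsDelta

theorem dominating_of_ma (h : Pool.Agent.Y40.MA.MartinAxiom) : DominatingIsContinuum := by
  intro S hS
  obtain ⟨g, hg⟩ := Pool.Agent.Y40.MA.bounded_of_lt h (T := S) hS fun s => s.1
  refine ⟨fun i => g i + i + 1, fun v hv hle => ?_⟩
  obtain ⟨k, hk⟩ := hg ⟨v, hv⟩
  obtain ⟨n, hn1, hn2⟩ := ((Filter.eventually_ge_atTop k).and hle).exists
  have := hk n
  dsimp at this hn2
  omega

/-- (1) Some forcing notion forces, below every condition, that `ω₁` is preserved and that the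
continuum hypothesis holds. (2) Some forcing notion forces, below every condition, that `ω₁` is
preserved, that Martin's axiom for `ℵ₁` dense sets holds and that the continuum is at most `ℵ₂`.
(3), (4) Both the continuum hypothesis and the plain forms of the two latter sentences imply that
no family of fewer than continuum many functions is dominating. (5) This implies the negated form
of Q1. -/
theorem result :
    (∃ (P : Type) (_ : Preorder P), Nonempty P ∧ ∀ p : P,
      p ∈ Pool.Agent.Helper292.ForceCH.OmegaOnePreserved P ∧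
      p ∈ Pool.Agent.Helper292.ForceCH.CHHolds P) ∧
    (∃ (P : Type) (_ : Preorder P), Nonempty P ∧ ∀ p : P,
      p ∈ Pool.Agent.W684.FM.OmegaOnePreserved P ∧
      p ∈ Pool.Agent.W684.FM.MartinHolds P Pool.Agent.W684.FM.Om1 ∧
      p ∈ Pool.Agent.Helper669.Forcing.ContinuumLe P (ℵ_ 2 : Cardinal.{0}).out) ∧
    ((𝔠 : Cardinal.{0}) = ℵ₁ → DominatingIsContinuum) ∧
    (Pool.Agent.W684.FM.MartinFor Pool.Agent.W684.FM.Om1 → (𝔠 : Cardinal.{0}) ≤ ℵ_ 2 →
      (𝔠 : Cardinal.{0}) = ℵ_ 2 ∧ DominatingIsContinuum) ∧
    (DominatingIsContinuum → Q1Fails) := by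
  refine ⟨Pool.Agent.Helper9CH.exists_ch, Pool.Agent.W910.FC.exists_forcing,
    fun h => dominating_of_ma (Pool.Agent.Y40.MA.martin_of_ch h), fun hM hc => ?_,
    fun h => CutIsDelta.result.1 h⟩
  obtain ⟨h1, h2⟩ := Pool.Agent.Helper9CH.martin_of_for hM hc
  exact ⟨h2, dominating_of_ma h1⟩

end Pool.Agent.Results.MP_90cb67_lc.ConsistentlyFails
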